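import Mathlib
import Pool.Agent.TH759.GP.Ext

/-!
# Extending complete filters to filters failing the Galvin property in the strongest way

Let `κ` be a regular cardinal with `2 ^ μ ≤ κ` for all `μ < κ` (every regular cardinal, if GCH
holds). Let `F₀` be a `κ`-complete filter over `κ` for which there are `κ` pairwise disjoint
positive sets (for example the trivial filter, the filter of co-bounded sets, or the club filter).
Then `F₀` extends to a proper `κ`-complete filter `F` with `2 ^ κ` members such that no `κ` of them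
have intersection in `F`. In particular `F` does not have the Galvin property.

Idea: there are `2 ^ κ` subsets `D i` of `κ` such that no `D i` contains the intersection of fewer
than `κ` others (`D i` consists of the codes of triples `(a, b, R)` with the code of `i ∩ a` below
`b` and in `R ⊆ b`). If `P d` are the disjoint positive sets, let `A i` be the complement of the
union of the `P d` with `d ∉ D i`, and let `F` consist of the `X` for which there are fewer than `κ`
indices `j` such that `P d \ X` is null for `F₀` whenever `d` is in all these `D j`.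
-/

set_option autoImplicit false

namespace Pool.Agent.Results.MP_45cf3b_lc.NonGalvinExt

open Cardinal Set

universe u

/-- The Galvin property `Gal(F, μ, θ)`: for every sequence of `θ` members of `F` there are `μ` many
indices whose sets have intersection in `F`. -/
def Gal {P : Type u} (F : Filter P) (μ θ : Cardinal.{u}) : Prop :=
  ∀ A : θ.ord.ToType → Set P, (∀ i, A i ∈ F) →
    ∃ I : Set θ.ord.ToType, #I = μ ∧ ⋂ i ∈ I, A i ∈ F

/-- The filter `F` over the cardinal `κ` is `κ`-complete: the intersection of fewer than `κ`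
members of `F` is a member of `F`. -/
def Complete (κ : Cardinal.{u}) (F : Filter κ.ord.ToType) : Prop :=
  ∀ S : Set (Set κ.ord.ToType), #S < κ → (∀ s ∈ S, s ∈ F) → ⋂₀ S ∈ F

theorem result (κ : Cardinal.{u}) (hκ : κ.IsRegular)
    (hpow : ∀ μ < κ, (2 : Cardinal.{u}) ^ μ ≤ κ)
    (F₀ : Filter κ.ord.ToType) (h₀ : Complete κ F₀)
    (hsplit : ∃ P : κ.ord.ToType → Set κ.ord.ToType,
      (∀ x, (P x)ᶜ ∉ F₀) ∧ ∀ x y, x ≠ y → Disjoint (P x) (P y)) :
    ∃ F : Filter κ.ord.ToType, F.NeBot ∧ Complete κ F ∧ (∀ X ∈ F₀, X ∈ F) ∧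
      ¬ Gal F κ (2 ^ κ) ∧ ¬ Gal F κ (Order.succ κ) := by
  obtain ⟨P, hP, hd⟩ := hsplit
  obtain ⟨F, h1, h2, h3, A, hA, hA2⟩ :=
    Pool.Agent.TH759.GP.ext_main hκ hpow F₀ h₀ P hP hd
  have key : ∀ θ : Cardinal.{u}, θ ≤ 2 ^ κ → ¬ Gal F κ θ := by
    intro θ hθ hG
    have hle : #(θ.ord.ToType) ≤ #(Set κ.ord.ToType) := by
      rw [mk_set, Cardinal.mk_toType, card_ord, Cardinal.mk_toType, card_ord]
      exact hθ
    obtain ⟨e⟩ := hle
    obtain ⟨I, hI, hI2⟩ := hG (fun i => A (e i)) (fun i => hA _)
    refine hA2 (e '' I) (by rw [mk_image_eq e.injective, hI]) ?_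
    rw [biInter_image]
    exact hI2
  refine ⟨F, h1, h2, h3, key _ le_rfl, key _ ?_⟩
  exact Order.succ_le_of_lt (cantor κ)

end Pool.Agent.Results.MP_45cf3b_lc.NonGalvinExt
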